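import Mathlib
import Pool.Agent.H60.FG.Gen

namespace Pool.Agent.Results.MP_2822c4_an.FewerGenerators

/-- Let `F` be a free group (on any set `ι`) and `b_1, …, b_m` finitely supported functions on `F`
with sum `0`; let `J` be the closed right ideal of `ℓ¹(F)` which they generate. For all free
generators `a_k` with at most `m` exceptions the distance of `e - a_k` to `J` is positive, and for
every `N` there are `x_1, …, x_N` in `F` such that the distance of `∑ l_t (e - a_k) ⋆ x_t` to `J`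
is at least `δ ∑ |l_t|` for all scalars `l_t`. -/
theorem result (ι : Type) (m : ℕ) (b : Fin m → FreeGroup ι → ℂ)
    (hb : ∀ i, (Function.support (b i)).Finite) (hb0 : ∀ i, ∑' x, b i x = 0) :
    ∃ S : Finset ι, S.card ≤ m ∧ ∀ k, k ∉ S →
      (∃ δ : ℝ, 0 < δ ∧ ∀ c : Fin m → FreeGroup ι → ℂ, (∀ i, Summable (c i)) →
        δ ≤ ∑' z, ‖(Set.indicator {1} 1 z - Set.indicator {FreeGroup.of k} 1 z : ℂ) -
          ∑ i, ∑' y, b i y * c i (y⁻¹ * z)‖) ∧
      ∀ N : ℕ, ∃ (x : Fin N → FreeGroup ι) (δ : ℝ), 0 < δ ∧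
        ∀ (l : Fin N → ℂ) (c : Fin m → FreeGroup ι → ℂ), (∀ i, Summable (c i)) →
          δ * ∑ t, ‖l t‖ ≤ ∑' z, ‖(∑ t, l t * (Set.indicator {x t} 1 z -
            Set.indicator {FreeGroup.of k * x t} 1 z) : ℂ) -
              ∑ i, ∑' y, b i y * c i (y⁻¹ * z)‖ := by
  obtain ⟨S, hS, h⟩ := Pool.Agent.H60.FG.main b hb hb0
  exact ⟨S, hS, fun k hk => ⟨Pool.Agent.H60.FG.one_of b k (h k hk), h k hk⟩⟩

end Pool.Agent.Results.MP_2822c4_an.FewerGenerators
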