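import Mathlib
import Pool.Agent.H14.NS.Heavy

namespace Pool.Agent.Results.MP_2822c4_an.HeavyTails

/-- The tail `∑_{|g| ≥ l} |f(g)|` of a function on a free group, `|g|` the length of the reduced
word of `g`. -/
noncomputable def tail {ι : Type} [DecidableEq ι] (f : FreeGroup ι → ℂ) (l : ℕ) : ℝ :=
  ∑' g, if l ≤ FreeGroup.norm g then ‖f g‖ else 0

/-- Let `F` be a free group, `a 0, …, a m` different free generators and suppose that
`e - a_k = ∑_{i < m} b_i ⋆ c_{i,k}` for `k = 0, …, m`, with `b_i` in the augmentation ideal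
and `c_{i,k} ∈ ℓ¹(F)`. Then
`∑_i (∑_{l < n} tail(b_i, l)²)^(1/2) · (1/n) ∑_k ∑_{l < n} tail(c_{i,k}, l)`
tends to infinity with `n`. -/
theorem result (ι : Type) [DecidableEq ι] (m : ℕ) (a : Fin (m + 1) → ι)
    (ha : Function.Injective a) (b : Fin m → FreeGroup ι → ℂ)
    (c : Fin m → Fin (m + 1) → FreeGroup ι → ℂ)
    (hb : ∀ i, Summable (b i)) (hb0 : ∀ i, ∑' x, b i x = 0) (hc : ∀ i k, Summable (c i k))
    (h : ∀ k x, (Set.indicator {1} 1 x - Set.indicator {FreeGroup.of (a k)} 1 x : ℂ) =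
      ∑ i, ∑' y, b i y * c i k (y⁻¹ * x)) :
    Filter.Tendsto (fun n : ℕ => ∑ i, √(∑ l ∈ Finset.range n, tail (b i) l ^ 2) *
      ((∑ k, ∑ l ∈ Finset.range n, tail (c i k) l) / n)) Filter.atTop Filter.atTop := by
  have h' : ∀ j x, Pool.Agent.H14.NS.delt (FreeGroup.of (a j)) x =
      ∑ i, Pool.Agent.H14.NS.conv (b i) (c i j) x := by
    intro j x
    refine Eq.trans ?_ (h j x)
    classical
    unfold Pool.Agent.H14.NS.delt
    simp only [Set.indicator_apply, Set.mem_singleton_iff, Pi.one_apply]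
  exact Pool.Agent.H14.NS.heavy ha (fun i => (hb i).norm) hb0 (fun i j => (hc i j).norm) h'

end Pool.Agent.Results.MP_2822c4_an.HeavyTails
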