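import Mathlib
import Pool.Agent.H14.NS.Single

namespace Pool.Agent.Results.MP_2822c4_an.SingleGenerator

/-- Let `F` be a free group, `b` an element of its augmentation ideal, `S` a finite set of free
generators and `c k ∈ ℓ¹(F)` for `k ∈ S`. Then
`∑ k ∈ S, ‖(e - a_k) - b ⋆ c_k‖₁ ≥ |S| - √|S|`. -/
theorem result (ι : Type) (S : Finset ι) (b : FreeGroup ι → ℂ) (c : ι → FreeGroup ι → ℂ)
    (hb : Summable b) (hb0 : ∑' x, b x = 0) (hc : ∀ k ∈ S, Summable (c k)) :
    (S.card : ℝ) - √(S.card : ℝ) ≤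
      ∑ k ∈ S, ∑' x, ‖(Set.indicator {1} 1 x - Set.indicator {FreeGroup.of k} 1 x : ℂ) -
        ∑' y, b y * c k (y⁻¹ * x)‖ := by
  classical
  have h := Pool.Agent.H14.NS.single_gen S hb.norm hb0 (c := c) (fun k hk => (hc k hk).norm)
  refine h.trans_eq ?_
  refine Finset.sum_congr rfl fun k _ => tsum_congr fun x => ?_
  congr 1
  unfold Pool.Agent.H14.NS.delt Pool.Agent.H14.NS.conv
  simp only [Set.indicator_apply, Set.mem_singleton_iff, Pi.one_apply]

end Pool.Agent.Results.MP_2822c4_an.SingleGenerator
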