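import Mathlib
import Pool.Agent.H81.FX.Assembly

namespace Pool.Agent.Results.MP_2822c4_an.UniformConstant

/-- For all `m` and `δ > 0` there is `N` such that for every free group `F`, all elements
`b_1, ..., b_m` of the augmentation ideal of `ℓ¹(F)`, all but at most `N` of the free generators
`a` and all `c_1, ..., c_m ∈ ℓ¹(F)`
`∑ i, ‖b_i‖₁ ‖c_i‖₁ + 5 ‖(e - a) - ∑ i, b_i ⋆ c_i‖₁ ≥ 10 - δ`.
The exceptional set `T` depends on the `b_i` only. -/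
theorem result (m : ℕ) (δ : ℝ) (hδ : 0 < δ) : ∃ N : ℕ, ∀ (ι : Type)
    (b : Fin m → FreeGroup ι → ℂ), (∀ i, Summable (b i)) → (∀ i, ∑' g, b i g = 0) →
    ∃ T : Finset ι, T.card ≤ N ∧ ∀ k, k ∉ T → ∀ c : Fin m → FreeGroup ι → ℂ,
      (∀ i, Summable (c i)) →
      10 - δ ≤ ∑ i, (∑' g, ‖b i g‖) * (∑' g, ‖c i g‖) +
        5 * ∑' x, ‖(Set.indicator {1} 1 x - Set.indicator {FreeGroup.of k} 1 x : ℂ) -
          ∑ i, ∑' y, b i y * c i (y⁻¹ * x)‖ :=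
  Pool.Agent.H81.FX.all_main m δ hδ

end Pool.Agent.Results.MP_2822c4_an.UniformConstant
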